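import Pool.Agent.Work.MP_959bfa_wn.Interface

namespace Wn

open Finset

theorem CHO : stmt_CHO := by
  intro n J hJ hJn
  have hJ0 : (0 : ℝ) < J := by exact_mod_cast hJ
  have hn0 : (0 : ℝ) < n := by exact_mod_cast (lt_of_lt_of_le hJ hJn)
  have hJn' : (J : ℝ) ≤ n := by exact_mod_cast hJn
  obtain ⟨x, hx⟩ : ∃ x : ℝ, x = J / (8 * n) := ⟨_, rfl⟩
  have hx0 : 0 < x := by rw [hx]; positivity
  have hx1 : x ≤ 1 := by
    rw [hx, div_le_one (by positivity)]
    linarith
  have h8x : 8 * x = J / n := by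
    rw [hx]; field_simp
  have hS : ((∑ j ∈ range (J + 1), n.choose j * 8 ^ j : ℕ) : ℝ) * x ^ J ≤ (8 * x + 1) ^ n := by
    rw [add_pow]
    push_cast
    rw [Finset.sum_mul]
    calc ∑ j ∈ range (J + 1), (n.choose j : ℝ) * 8 ^ j * x ^ J
        ≤ ∑ j ∈ range (J + 1), (8 * x) ^ j * 1 ^ (n - j) * (n.choose j : ℝ) := by
          apply Finset.sum_le_sum
          intro j hj
          have hj' : j ≤ J := Nat.lt_succ_iff.1 (Finset.mem_range.1 hj)
          have h1 : x ^ J ≤ x ^ j := pow_le_pow_of_le_one hx0.le hx1 hj'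
          have h2 : (0 : ℝ) ≤ (n.choose j : ℝ) * 8 ^ j := by positivity
          calc (n.choose j : ℝ) * 8 ^ j * x ^ J ≤ (n.choose j : ℝ) * 8 ^ j * x ^ j :=
                mul_le_mul_of_nonneg_left h1 h2
            _ = (8 * x) ^ j * 1 ^ (n - j) * (n.choose j : ℝ) := by
                rw [one_pow, mul_pow]; ring
      _ ≤ ∑ j ∈ range (n + 1), (8 * x) ^ j * 1 ^ (n - j) * (n.choose j : ℝ) := by
          apply Finset.sum_le_sum_of_subset_of_nonneg
          · intro j hj
            rw [Finset.mem_range] at hj ⊢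
            omega
          · intro j _ _
            positivity
  have hE : (8 * x + 1) ^ n ≤ Real.exp 1 ^ J := by
    have h1 : (8 * x + 1) ^ n ≤ (Real.exp (J / n)) ^ n := by
      apply pow_le_pow_left₀ (by positivity)
      rw [h8x]
      exact Real.add_one_le_exp _
    have h2 : (Real.exp (J / n)) ^ n = Real.exp 1 ^ J := by
      rw [← Real.exp_nat_mul, ← Real.exp_nat_mul]
      congr 1
      field_simp
    rw [← h2]; exact h1
  have hxJ : 0 < x ^ J := by positivity
  have hfin : ((∑ j ∈ range (J + 1), n.choose j * 8 ^ j : ℕ) : ℝ) * x ^ J ≤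
      (8 * Real.exp 1 * n / J) ^ J * x ^ J := by
    rw [← mul_pow]
    have h3 : 8 * Real.exp 1 * n / J * x = Real.exp 1 := by
      rw [hx]; field_simp
    rw [h3]
    exact hS.trans hE
  exact le_of_mul_le_mul_right hfin hxJ

end Wn
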