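import Pool.Agent.Work.MP_959bfa_wn.Interface

namespace Wn

open Finset

/-- one coordinate: `n / k` values meet every interval with at least `k` of the points -/
theorem GRID_one (n k : ℕ) (hk : 1 ≤ k) (f : Fin n → ℝ) :
    ∃ X : Finset ℝ, X.card ≤ n / k ∧ ∀ a b : ℝ,
      k ≤ (fl (univ : Finset (Fin n)) (fun i => a ≤ f i ∧ f i ≤ b)).card →
      ∃ x ∈ X, a ≤ x ∧ x ≤ b := by
  have hq : ∀ q : Fin (n / k), q.1 * k + (k - 1) < n := by
    intro q
    have h1 : (q.1 + 1) * k ≤ n := by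
      have h2 : q.1 + 1 ≤ n / k := q.2
      calc (q.1 + 1) * k ≤ (n / k) * k := Nat.mul_le_mul_right k h2
        _ ≤ n := Nat.div_mul_le_self n k
    have h3 : (q.1 + 1) * k = q.1 * k + k := by ring
    omega
  obtain ⟨σ, hσ⟩ : ∃ σ : Equiv.Perm (Fin n), Monotone (f ∘ σ) :=
    ⟨Tuple.sort f, Tuple.monotone_sort f⟩
  refine ⟨(univ : Finset (Fin (n / k))).image (fun q => f (σ ⟨q.1 * k + (k - 1), hq q⟩)), ?_, ?_⟩
  · calc _ ≤ (univ : Finset (Fin (n / k))).card := Finset.card_image_le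
      _ = n / k := by simp
  · intro a b hab
    have hcard : (fl (univ : Finset (Fin n)) (fun i => a ≤ f (σ i) ∧ f (σ i) ≤ b)).card =
        (fl (univ : Finset (Fin n)) (fun i => a ≤ f i ∧ f i ≤ b)).card := by
      apply Finset.card_bij (fun i _ => σ i)
      · intro i hi
        rw [mem_fl] at hi ⊢
        exact ⟨mem_univ _, hi.2⟩
      · intro i _ j _ hij
        exact σ.injective hij
      · intro j hj
        rw [mem_fl] at hj
        refine ⟨σ.symm j, ?_, by simp⟩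
        rw [mem_fl]
        refine ⟨mem_univ _, ?_⟩
        simpa using hj.2
    obtain ⟨S, hS⟩ : ∃ S : Finset (Fin n),
        S = fl (univ : Finset (Fin n)) (fun i => a ≤ f (σ i) ∧ f (σ i) ≤ b) := ⟨_, rfl⟩
    rw [← hcard, ← hS] at hab
    have hne : S.Nonempty := Finset.card_pos.1 (lt_of_lt_of_le hk hab)
    obtain ⟨i0, hi0⟩ : ∃ i0, i0 = S.min' hne := ⟨_, rfl⟩
    obtain ⟨i1, hi1⟩ : ∃ i1, i1 = S.max' hne := ⟨_, rfl⟩
    have hi0S : i0 ∈ S := hi0 ▸ S.min'_mem hne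
    have hi1S : i1 ∈ S := hi1 ▸ S.max'_mem hne
    have h01 : i0 ≤ i1 := hi0 ▸ S.min'_le i1 hi1S
    have hsub : S ⊆ Finset.Icc i0 i1 := by
      intro i hi
      rw [Finset.mem_Icc]
      exact ⟨hi0 ▸ S.min'_le i hi, hi1 ▸ S.le_max' i hi⟩
    have hlen : k ≤ i1.1 + 1 - i0.1 := by
      calc k ≤ S.card := hab
        _ ≤ (Finset.Icc i0 i1).card := Finset.card_le_card hsub
        _ = i1.1 + 1 - i0.1 := by rw [Fin.card_Icc]
    have hmem : ∀ i : Fin n, i0 ≤ i → i ≤ i1 → a ≤ f (σ i) ∧ f (σ i) ≤ b := by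
      intro i h1 h2
      have e0 := hi0S
      have e1 := hi1S
      rw [hS, mem_fl] at e0 e1
      have m0 := hσ h1
      have m1 := hσ h2
      simp only [Function.comp_apply] at m0 m1
      exact ⟨e0.2.1.trans m0, m1.trans e1.2.2⟩
    have hdm : k * (i0.1 / k) + i0.1 % k = i0.1 := Nat.div_add_mod _ _
    have hml : i0.1 % k < k := Nat.mod_lt _ (by omega)
    have hcomm : i0.1 / k * k = k * (i0.1 / k) := Nat.mul_comm _ _
    have h01' : i0.1 ≤ i1.1 := h01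
    have hlow : i0.1 ≤ i0.1 / k * k + (k - 1) := by omega
    have hupp : i0.1 / k * k + (k - 1) ≤ i1.1 := by omega
    have hqlt : i0.1 / k < n / k := by
      have h1 : (i0.1 / k + 1) * k ≤ n := by
        have h2 : (i0.1 / k + 1) * k = i0.1 / k * k + k := by ring
        have h3 := i1.2
        omega
      exact (Nat.le_div_iff_mul_le (by omega)).2 h1
    refine ⟨_, Finset.mem_image.2 ⟨⟨i0.1 / k, hqlt⟩, mem_univ _, rfl⟩, ?_⟩
    exact hmem _ (Fin.le_def.2 hlow) (Fin.le_def.2 hupp)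

theorem GRID : stmt_GRID := by
  intro μ hμ n k P hk hnk
  obtain ⟨X, hX, hX2⟩ := GRID_one n k hk (fun i => (P i).1)
  obtain ⟨Y, hY, hY2⟩ := GRID_one n k hk (fun i => (P i).2)
  have hk0 : (0 : ℝ) < k := by exact_mod_cast hk
  have hfl : ((n / k : ℕ) : ℝ) ≤ (n : ℝ) / k := Nat.cast_div_le
  have hnk0 : (0 : ℝ) ≤ (n : ℝ) / k := by positivity
  refine ⟨X ×ˢ Y, ?_, ?_⟩
  · rw [Finset.card_product]
    push_cast
    have h1 : (X.card : ℝ) ≤ (n : ℝ) / k := by
      refine le_trans ?_ hfl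
      exact_mod_cast hX
    have h2 : (Y.card : ℝ) ≤ (n : ℝ) / k := by
      refine le_trans ?_ hfl
      exact_mod_cast hY
    have h3 : (n : ℝ) / k ≤ μ := by
      rw [div_le_iff₀ hk0]; exact hnk
    calc (X.card : ℝ) * Y.card ≤ ((n : ℝ) / k) * ((n : ℝ) / k) :=
          mul_le_mul h1 h2 (Nat.cast_nonneg _) hnk0
      _ ≤ μ * ((n : ℝ) / k) := mul_le_mul_of_nonneg_right h3 hnk0
  · intro R hR
    have hx : k ≤ (fl (univ : Finset (Fin n)) (fun i => R.l ≤ (P i).1 ∧ (P i).1 ≤ R.r)).card := by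
      refine hR.trans (Finset.card_le_card ?_)
      intro i hi
      rw [inds, mem_fl] at hi
      rw [mem_fl]
      exact ⟨mem_univ _, hi.2.1, hi.2.2.1⟩
    have hy : k ≤ (fl (univ : Finset (Fin n)) (fun i => R.b ≤ (P i).2 ∧ (P i).2 ≤ R.t)).card := by
      refine hR.trans (Finset.card_le_card ?_)
      intro i hi
      rw [inds, mem_fl] at hi
      rw [mem_fl]
      exact ⟨mem_univ _, hi.2.2.2.1, hi.2.2.2.2⟩
    obtain ⟨x, hxX, hx1, hx2⟩ := hX2 _ _ hx
    obtain ⟨y, hyY, hy1, hy2⟩ := hY2 _ _ hy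
    exact ⟨(x, y), Finset.mem_product.2 ⟨hxX, hyY⟩, hx1, hx2, hy1, hy2⟩

end Wn
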