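import Pool.Agent.Work.MP_959bfa_wn.Interface2

namespace Wn

open Finset

theorem IND_card_fl {α : Type} (S : Finset α) (p : α → Prop) [DecidablePred p] :
    (fl S p).card = ∑ a ∈ S, (if p a then 1 else 0) := by
  rw [← Finset.card_filter]
  congr 1
  ext a
  rw [mem_fl, Finset.mem_filter]

theorem IND (hCORN : stmt_CORN) : stmt_IND := by
  classical
  intro ι R F s hs hNe hD hC
  obtain ⟨N, hN⟩ : ∃ N : ι → Finset ι, ∀ i j, j ∈ N i ↔ j ∈ F ∧ i ≠ j ∧ ¬ Dj (R i) (R j) :=
    ⟨fun i => fl F (fun j => i ≠ j ∧ ¬ Dj (R i) (R j)), fun i j => mem_fl⟩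
  have hsum : ∑ i ∈ F, (N i).card ≤ 80 * s * F.card := by
    have h1 : ∀ i ∈ F, (N i).card ≤ (fl F (fun j => Nb R i j)).card +
        (fl F (fun j => Cr R j i)).card + (fl F (fun j => Cr R i j)).card := by
      intro i hi
      refine (Finset.card_le_card ?_).trans ((Finset.card_union_le _ _).trans
        (Nat.add_le_add_right (Finset.card_union_le _ _) _))
      intro j hj
      rw [hN] at hj
      simp only [Finset.mem_union, mem_fl]
      by_cases ha : Cr R j i
      · exact Or.inl (Or.inr ⟨hj.1, ha⟩)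
      · by_cases hb : Cr R i j
        · exact Or.inr ⟨hj.1, hb⟩
        · exact Or.inl (Or.inl ⟨hj.1, hj.2.1, hj.2.2, hb, ha⟩)
    have h2 : ∑ i ∈ F, (fl F (fun j => Nb R i j)).card ≤ 64 * s * F.card := by
      have h3 := hCORN ι R F (8 * s) hNe hD
      rw [IND_card_fl, Finset.sum_product] at h3
      have h4 : ∑ i ∈ F, (fl F (fun j => Nb R i j)).card =
          ∑ x ∈ F, ∑ y ∈ F, (if Nb R (x, y).1 (x, y).2 then 1 else 0) := by
        apply Finset.sum_congr rfl
        intro i _
        rw [IND_card_fl]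
      rw [h4]
      refine h3.trans (le_of_eq ?_)
      ring
    have h5 : ∑ i ∈ F, (fl F (fun j => Cr R j i)).card ≤ 8 * s * F.card := by
      calc ∑ i ∈ F, (fl F (fun j => Cr R j i)).card ≤ ∑ _i ∈ F, 8 * s := Finset.sum_le_sum hC
        _ = 8 * s * F.card := by rw [Finset.sum_const, smul_eq_mul]; ring
    have h6 : ∑ i ∈ F, (fl F (fun j => Cr R i j)).card =
        ∑ i ∈ F, (fl F (fun j => Cr R j i)).card := by
      simp only [IND_card_fl]
      rw [Finset.sum_comm]
    calc ∑ i ∈ F, (N i).card ≤ ∑ i ∈ F, ((fl F (fun j => Nb R i j)).card +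
        (fl F (fun j => Cr R j i)).card + (fl F (fun j => Cr R i j)).card) :=
          Finset.sum_le_sum h1
      _ = ∑ i ∈ F, (fl F (fun j => Nb R i j)).card + ∑ i ∈ F, (fl F (fun j => Cr R j i)).card +
          ∑ i ∈ F, (fl F (fun j => Cr R i j)).card := by
          rw [Finset.sum_add_distrib, Finset.sum_add_distrib]
      _ ≤ 64 * s * F.card + 8 * s * F.card + 8 * s * F.card := by
          rw [h6]
          exact Nat.add_le_add (Nat.add_le_add h2 h5) h5
      _ = 80 * s * F.card := by ring
  -- half of the members have few partners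
  obtain ⟨H, hH⟩ : ∃ H : Finset ι, ∀ i, i ∈ H ↔ i ∈ F ∧ (N i).card ≤ 160 * s :=
    ⟨fl F (fun i => (N i).card ≤ 160 * s), fun i => mem_fl⟩
  have hHF : H ⊆ F := fun i hi => ((hH i).1 hi).1
  have hhalf : F.card ≤ 2 * H.card := by
    have h1 : (F \ H).card * (160 * s + 1) ≤ ∑ i ∈ F, (N i).card := by
      calc (F \ H).card * (160 * s + 1) = ∑ _i ∈ F \ H, (160 * s + 1) := by
            rw [Finset.sum_const, smul_eq_mul]
        _ ≤ ∑ i ∈ F \ H, (N i).card := by
            apply Finset.sum_le_sum
            intro i hi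
            rw [Finset.mem_sdiff] at hi
            by_contra hcon
            exact hi.2 ((hH i).2 ⟨hi.1, by omega⟩)
        _ ≤ ∑ i ∈ F, (N i).card :=
            Finset.sum_le_sum_of_subset_of_nonneg Finset.sdiff_subset (fun _ _ _ => Nat.zero_le _)
    have h2 : (F \ H).card + H.card = F.card := Finset.card_sdiff_add_card_eq_card hHF
    have h3 : (F \ H).card * (160 * s + 1) ≤ 80 * s * F.card := h1.trans hsum
    by_contra hcon
    have h4 : F.card + 1 ≤ 2 * (F \ H).card := by omega
    have h5 : (F.card + 1) * (80 * s) ≤ 2 * (F \ H).card * (80 * s) := Nat.mul_le_mul_right _ h4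
    have h6 : 2 * (F \ H).card * (80 * s) + (F \ H).card = (F \ H).card * (160 * s + 1) := by ring
    have h7 : (F.card + 1) * (80 * s) = 80 * s * F.card + 80 * s := by ring
    omega
  -- a maximal independent subset
  obtain ⟨T, hTH, hTI, hTmax⟩ : ∃ T : Finset ι, T ⊆ H ∧ Indep R T ∧
      ∀ T' : Finset ι, T' ⊆ H → Indep R T' → T'.card ≤ T.card := by
    have hne : (fl H.powerset (fun T => Indep R T)).Nonempty := by
      refine ⟨∅, mem_fl.2 ⟨Finset.empty_mem_powerset _, ?_⟩⟩
      intro i hi
      exact absurd hi (Finset.notMem_empty i)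
    obtain ⟨T, hT, hmax⟩ := Finset.exists_max_image _ (fun T => T.card) hne
    rw [mem_fl, Finset.mem_powerset] at hT
    refine ⟨T, hT.1, hT.2, ?_⟩
    intro T' h1 h2
    exact hmax T' (mem_fl.2 ⟨Finset.mem_powerset.2 h1, h2⟩)
  have hcov : H ⊆ T ∪ T.biUnion N := by
    intro i hi
    rw [Finset.mem_union, Finset.mem_biUnion]
    by_contra hcon
    push Not at hcon
    obtain ⟨hiT, hiN⟩ := hcon
    have hdj : ∀ t ∈ T, Dj (R t) (R i) := by
      intro t ht
      by_contra hd
      exact hiN t ht ((hN t i).2 ⟨hHF hi, fun h => hiT (h ▸ ht), hd⟩)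
    have hind : Indep R (insert i T) := by
      intro a ha b hb hab
      rw [Finset.mem_insert] at ha hb
      rcases ha with rfl | ha
      · rcases hb with rfl | hb
        · exact absurd rfl hab
        · intro x y hxy
          exact hdj b hb x y ⟨hxy.2, hxy.1⟩
      · rcases hb with rfl | hb
        · exact hdj a ha
        · exact hTI a ha b hb hab
    have h1 := hTmax (insert i T) (Finset.insert_subset hi hTH) hind
    rw [Finset.card_insert_of_notMem hiT] at h1
    omega
  have hHc : H.card ≤ T.card * (160 * s + 1) := by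
    calc H.card ≤ (T ∪ T.biUnion N).card := Finset.card_le_card hcov
      _ ≤ T.card + (T.biUnion N).card := Finset.card_union_le _ _
      _ ≤ T.card + T.card * (160 * s) := by
          apply Nat.add_le_add_left
          apply Finset.card_biUnion_le_card_mul
          intro t ht
          exact ((hH t).1 (hTH ht)).2
      _ = T.card * (160 * s + 1) := by ring
  refine ⟨T, hTH.trans hHF, hTI, ?_⟩
  calc F.card ≤ 2 * (T.card * (160 * s + 1)) := by omega
    _ = T.card * (320 * s + 2) := by ring
    _ ≤ T.card * (400 * s) := Nat.mul_le_mul_left _ (by omega)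
    _ = 400 * s * T.card := by ring

end Wn
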